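import Mathlib
import Pool.Agent.Helper49.EJ.Upper

/-!
Points drawn one after another with bounded conditional densities have bounded `k`-point densities.
-/

set_option autoImplicit false

open MeasureTheory Set
open scoped ENNReal

namespace Pool.Agent.Helper63.SP

variable {X : Type*} [MeasurableSpace X] {μ : Measure X} [IsProbabilityMeasure μ] {n : ℕ}
  {q : Fin n → (Fin n → X) → ℝ≥0∞}

/-- the law of `n` points drawn one after another: the `j`-th point has the conditional density
`q j` with respect to `μ`, which depends on the points `i ≤ j` only -/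
noncomputable def seqLaw (μ : Measure X) (q : Fin n → (Fin n → X) → ℝ≥0∞) : Measure (Fin n → X) :=
  (Measure.pi fun _ : Fin n => μ).withDensity fun x => ∏ j, q j x

/-- one conditional density integrates to one -/
lemma step_eq {G f : (Fin n → X) → ℝ≥0∞} (hG : Measurable G) (hf : Measurable f) (m : Fin n)
    (hone : ∀ x, ∫⁻ y, f (Function.update x m y) ∂μ = 1)
    (hGm : ∀ x y, G (Function.update x m y) = G x) :
    ∫⁻ x, G x * f x ∂(Measure.pi fun _ : Fin n => μ) =
      ∫⁻ x, G x ∂(Measure.pi fun _ : Fin n => μ) := by
  apply lintegral_eq_of_lmarginal_eq {m} (hG.mul hf) hG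
  rw [lmarginal_singleton, lmarginal_singleton]
  funext x
  simp only [Pi.mul_apply, hGm, lintegral_const, measure_univ, mul_one]
  have h1 : ∫⁻ y, G x * f (Function.update x m y) ∂μ =
      G x * ∫⁻ y, f (Function.update x m y) ∂μ :=
    lintegral_const_mul _ (hf.comp (measurable_update x))
  rw [h1, hone x, mul_one]

/-- the product of the first `m` conditional densities -/
noncomputable def pr (q : Fin n → (Fin n → X) → ℝ≥0∞) (m : ℕ) (x : Fin n → X) : ℝ≥0∞ :=
  ∏ j ∈ Finset.univ.filter (fun j : Fin n => (j : ℕ) < m), q j x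

omit [MeasurableSpace X] in
lemma pr_zero (x : Fin n → X) : pr q 0 x = 1 := by
  unfold pr; simp

omit [MeasurableSpace X] in
lemma pr_full (x : Fin n → X) : pr q n x = ∏ j, q j x := by
  unfold pr; simp

omit [MeasurableSpace X] in
lemma pr_succ (m : Fin n) (x : Fin n → X) : pr q (m + 1) x = pr q m x * q m x := by
  unfold pr
  have : Finset.univ.filter (fun j : Fin n => (j : ℕ) < m + 1) =
      insert m (Finset.univ.filter (fun j : Fin n => (j : ℕ) < m)) := by
    ext j
    simp only [Finset.mem_filter, Finset.mem_univ, true_and, Finset.mem_insert, Fin.ext_iff]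
    omega
  rw [this, Finset.prod_insert (by simp), mul_comm]

lemma pr_meas (hm : ∀ j, Measurable (q j)) (m : ℕ) : Measurable (pr q m) :=
  Finset.measurable_fun_prod _ fun j _ => hm j

omit [MeasurableSpace X] in
lemma pr_update (hdep : ∀ j x y, (∀ i, i ≤ j → x i = y i) → q j x = q j y) (m : Fin n)
    (x : Fin n → X) (y : X) : pr q m (Function.update x m y) = pr q m x := by
  unfold pr
  refine Finset.prod_congr rfl fun j hj => hdep j _ _ fun i hi => ?_
  rw [Finset.mem_filter] at hj
  have h1 : i ≠ m := by
    intro h
    rw [h] at hi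
    have := hj.2
    rw [Fin.le_def] at hi
    omega
  rw [Function.update_of_ne h1]

theorem seqLaw_prob (hm : ∀ j, Measurable (q j))
    (hdep : ∀ j x y, (∀ i, i ≤ j → x i = y i) → q j x = q j y)
    (hone : ∀ j x, ∫⁻ y, q j (Function.update x j y) ∂μ = 1) :
    IsProbabilityMeasure (seqLaw μ q) := by
  have key : ∀ m : ℕ, m ≤ n → ∫⁻ x, pr q m x ∂(Measure.pi fun _ : Fin n => μ) = 1 := by
    intro m
    induction m with
    | zero => intro _; simp [pr_zero]
    | succ m ih =>
      intro h
      have e : ∀ x, pr q (m + 1) x = pr q m x * q ⟨m, h⟩ x := pr_succ ⟨m, h⟩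
      simp only [e]
      rw [step_eq (pr_meas hm m) (hm _) ⟨m, h⟩ (hone _) (pr_update hdep ⟨m, h⟩)]
      exact ih (by omega)
  refine ⟨?_⟩
  unfold seqLaw
  rw [withDensity_apply _ MeasurableSet.univ, Measure.restrict_univ]
  have := key n le_rfl
  simpa only [pr_full] using this

theorem seqLaw_map (hm : ∀ j, Measurable (q j))
    (hdep : ∀ j x y, (∀ i, i ≤ j → x i = y i) → q j x = q j y)
    (hone : ∀ j x, ∫⁻ y, q j (Function.update x j y) ∂μ = 1) {b : ℝ≥0∞}
    (hb : ∀ j x, q j x ≤ b) (k : ℕ) (f : Fin k → Fin n) (hf : Function.Injective f) :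
    (seqLaw μ q).map (fun x : Fin n → X => x ∘ f) ≤ b ^ k • Measure.pi fun _ : Fin k => μ := by
  classical
  have hmf : Measurable (fun x : Fin n → X => x ∘ f) :=
    measurable_pi_lambda _ fun j => measurable_pi_apply (f j)
  refine Measure.le_iff.2 fun B hB => ?_
  rw [Measure.map_apply hmf hB]
  set A : Set (Fin n → X) := (fun x : Fin n → X => x ∘ f) ⁻¹' B with hA
  have hAm : MeasurableSet A := hmf hB
  set J : Finset (Fin n) := Finset.univ.image f with hJ
  set g : (Fin n → X) → ℝ≥0∞ := A.indicator 1 with hg
  have hgm : Measurable g := measurable_one.indicator hAm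
  have hgJ : ∀ j, j ∉ J → ∀ x y, g (Function.update x j y) = g x := by
    intro j hj x y
    have : (Function.update x j y) ∘ f = x ∘ f := by
      funext i
      have h1 : f i ≠ j := fun h => hj (by rw [hJ, ← h]; exact Finset.mem_image_of_mem f (Finset.mem_univ i))
      simp only [Function.comp_apply, Function.update_of_ne h1]
    have h2 : Function.update x j y ∈ A ↔ x ∈ A := by
      rw [hA, mem_preimage, mem_preimage, this]
    by_cases h : x ∈ A
    · rw [hg, indicator_of_mem h, indicator_of_mem (h2.2 h)]; rfl
    · rw [hg, indicator_of_notMem h, indicator_of_notMem (fun h3 => h (h2.1 h3))]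
  have key : ∀ m : ℕ, m ≤ n → ∫⁻ x, g x * pr q m x ∂(Measure.pi fun _ : Fin n => μ) ≤
      b ^ (J.filter (fun j : Fin n => (j : ℕ) < m)).card *
        ∫⁻ x, g x ∂(Measure.pi fun _ : Fin n => μ) := by
    intro m
    induction m with
    | zero => intro _; simp [pr_zero]
    | succ m ih =>
      intro h
      have hih := ih (by omega)
      have e : ∀ x, g x * pr q (m + 1) x = g x * pr q m x * q ⟨m, h⟩ x := fun x => by
        rw [mul_assoc]; congr 1; exact pr_succ ⟨m, h⟩ x
      simp only [e]
      by_cases hj : (⟨m, h⟩ : Fin n) ∈ J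
      · have hc : (J.filter (fun j : Fin n => (j : ℕ) < m + 1)).card =
            (J.filter (fun j : Fin n => (j : ℕ) < m)).card + 1 := by
          have : J.filter (fun j : Fin n => (j : ℕ) < m + 1) =
              insert ⟨m, h⟩ (J.filter (fun j : Fin n => (j : ℕ) < m)) := by
            ext j
            simp only [Finset.mem_filter, Finset.mem_insert, Fin.ext_iff]
            constructor
            · rintro ⟨h1, h2⟩
              by_cases h3 : (j : ℕ) = m
              · exact Or.inl h3
              · exact Or.inr ⟨h1, by omega⟩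
            · rintro (h1 | ⟨h1, h2⟩)
              · have : j = ⟨m, h⟩ := Fin.ext h1
                rw [this]
                exact ⟨hj, by simp⟩
              · exact ⟨h1, by omega⟩
          rw [this, Finset.card_insert_of_notMem (by simp)]
        rw [hc]
        calc ∫⁻ x, g x * pr q m x * q ⟨m, h⟩ x ∂(Measure.pi fun _ : Fin n => μ)
            ≤ ∫⁻ x, b * (g x * pr q m x) ∂(Measure.pi fun _ : Fin n => μ) := by
              apply lintegral_mono
              intro x
              simp only
              rw [mul_comm b]
              exact mul_le_mul_right (hb _ _) _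
          _ = b * ∫⁻ x, g x * pr q m x ∂(Measure.pi fun _ : Fin n => μ) :=
              lintegral_const_mul _ (hgm.mul (pr_meas hm m))
          _ ≤ b * (b ^ (J.filter (fun j : Fin n => (j : ℕ) < m)).card *
                ∫⁻ x, g x ∂(Measure.pi fun _ : Fin n => μ)) := mul_le_mul_right hih _
          _ = _ := by rw [pow_succ]; ring
      · have hc : (J.filter (fun j : Fin n => (j : ℕ) < m + 1)) =
            (J.filter (fun j : Fin n => (j : ℕ) < m)) := by
          ext j
          simp only [Finset.mem_filter]
          refine ⟨fun h1 => ⟨h1.1, ?_⟩, fun h1 => ⟨h1.1, by omega⟩⟩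
          by_contra h2
          have : j = ⟨m, h⟩ := Fin.ext (show (j : ℕ) = m by omega)
          exact hj (this ▸ h1.1)
        have h5 := step_eq (μ := μ) (G := fun x => g x * pr q m x) (hgm.mul (pr_meas hm m))
          (hm _) ⟨m, h⟩ (hone _) (fun x y => by
            rw [hgJ _ hj, show pr q m (Function.update x ⟨m, h⟩ y) = pr q m x from
              pr_update hdep ⟨m, h⟩ x y])
        rw [hc, h5]
        exact hih
  have hcard : (J.filter (fun j : Fin n => (j : ℕ) < n)).card = k := by
    have : J.filter (fun j : Fin n => (j : ℕ) < n) = J :=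
      Finset.filter_true_of_mem fun j _ => j.2
    rw [this, hJ, Finset.card_image_of_injective _ hf, Finset.card_univ, Fintype.card_fin]
  have h1 := key n le_rfl
  rw [hcard] at h1
  have h2 : (seqLaw μ q) A = ∫⁻ x, g x * pr q n x ∂(Measure.pi fun _ : Fin n => μ) := by
    unfold seqLaw
    rw [withDensity_apply _ hAm, ← lintegral_indicator hAm]
    apply lintegral_congr
    intro x
    rw [pr_full]
    by_cases h : x ∈ A
    · rw [indicator_of_mem h, hg, indicator_of_mem h]; simp
    · rw [indicator_of_notMem h, hg, indicator_of_notMem h, zero_mul]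
  have h3 : ∫⁻ x, g x ∂(Measure.pi fun _ : Fin n => μ) = (Measure.pi fun _ : Fin k => μ) B := by
    rw [hg, lintegral_indicator_one hAm]
    exact (Pool.Agent.Helper49.EJ.measurePreserving_comp μ f hf).measure_preimage
      hB.nullMeasurableSet
  rw [h2, Measure.smul_apply, smul_eq_mul, ← h3]
  exact h1

end Pool.Agent.Helper63.SP
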