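import Pool.Agent.Helper63.SP.Weight

/-!
The upper bound for the largest kissing configuration among random candidates with bounded
`k`-point densities.
-/

set_option autoImplicit false

open MeasureTheory Set Filter Topology
open scoped Nat ENNReal

namespace Pool.Agent.Helper63.SP

open Pool.Agent.Helper63.RKS Pool.Agent.Helper49.EJ Pool.Agent.Helper47.KP

variable {d : ℕ}

/-- union bound for laws with bounded densities -/
lemma union_spread [NeZero d] {n k : ℕ} {b : ℝ} (hb : 0 ≤ b) {Q : Measure (Fin n → Sph d)}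
    [IsProbabilityMeasure Q]
    (hQ : ∀ f : Fin k → Fin n, Function.Injective f → Q.map (fun x : Fin n → Sph d => x ∘ f) ≤
      ENNReal.ofReal b • Measure.pi fun _ : Fin k => sig d) :
    Q.real {x | ∃ I, Kis x I ∧ k ≤ I.card} ≤ (n.choose k : ℝ) * (b * kp d k) := by
  classical
  have : IsProbabilityMeasure (sig d) := sig_prob (d := d)
  have hsub : {x : Fin n → Sph d | ∃ I, Kis x I ∧ k ≤ I.card} ⊆
      ⋃ I ∈ Finset.powersetCard k (Finset.univ : Finset (Fin n)), {x | Kis x I} := by
    rintro x ⟨I, hI, hk⟩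
    obtain ⟨J, hJ, hJk⟩ := Finset.exists_subset_card_eq hk
    simp only [Set.mem_iUnion, Finset.mem_powersetCard]
    exact ⟨J, ⟨Finset.subset_univ J, hJk⟩, fun i hi j hj => hI i (hJ hi) j (hJ hj)⟩
  have h1 : ∀ I ∈ Finset.powersetCard k (Finset.univ : Finset (Fin n)),
      Q.real {x | Kis x I} ≤ b * kp d k := by
    intro I hI
    rw [Finset.mem_powersetCard] at hI
    set f : Fin k → Fin n := fun i => I.orderEmbOfFin hI.2 i with hf
    have hfi : Function.Injective f := (I.orderEmbOfFin hI.2).injective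
    have hm : Measurable (fun x : Fin n → Sph d => x ∘ f) :=
      measurable_pi_lambda _ fun j => measurable_pi_apply (f j)
    have hs : {x : Fin n → Sph d | Kis x I} ⊆ (fun x : Fin n → Sph d => x ∘ f) ⁻¹' Kiss d k := by
      intro x hx i j hij
      exact hx (f i) (I.orderEmbOfFin_mem hI.2 i) (f j) (I.orderEmbOfFin_mem hI.2 j)
        fun h => hij (hfi h)
    refine (measureReal_mono hs (measure_ne_top _ _)).trans ?_
    have h2 := hQ f hfi (Kiss d k)
    rw [Measure.map_apply hm (measurableSet_Kiss d k), Measure.smul_apply, smul_eq_mul] at h2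
    have h3 := ENNReal.toReal_mono
      (ENNReal.mul_ne_top ENNReal.ofReal_ne_top (measure_ne_top _ _)) h2
    rw [ENNReal.toReal_mul, ENNReal.toReal_ofReal hb] at h3
    exact h3
  calc Q.real {x | ∃ I, Kis x I ∧ k ≤ I.card}
      ≤ Q.real (⋃ I ∈ Finset.powersetCard k (Finset.univ : Finset (Fin n)), {x | Kis x I}) :=
        measureReal_mono hsub (measure_ne_top _ _)
    _ ≤ ∑ I ∈ Finset.powersetCard k (Finset.univ : Finset (Fin n)), Q.real {x | Kis x I} :=
        measureReal_biUnion_finset_le _ _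
    _ ≤ ∑ _I ∈ Finset.powersetCard k (Finset.univ : Finset (Fin n)), b * kp d k :=
        Finset.sum_le_sum h1
    _ = (n.choose k : ℝ) * (b * kp d k) := by
        rw [Finset.sum_const, Finset.card_powersetCard, Finset.card_univ, Fintype.card_fin,
          nsmul_eq_mul]

/-- **The upper bound for random candidates with bounded `k`-point densities.** -/
theorem upper_spread (hcap : CapAsymp) {s₁ s₂ : ℝ} (h1 : Real.logb 2 (2 / Real.sqrt 3) < s₁)
    (h2 : s₂ < Real.logb 2 (2 / Real.sqrt 3) + gst) {ε : ℝ} (hε : 0 < ε) :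
    ∃ δ : ℝ, 0 < δ ∧ ∀ᶠ d : ℕ in atTop, ∀ s : ℝ, s₁ ≤ s → s ≤ s₂ → ∀ (h : ℝ) (n : ℕ)
      (Q : Measure (Fin n → Sph d)), IsProbabilityMeasure Q → (n : ℝ) ≤ 2 ^ ((s - h) * d) →
      (∀ (k : ℕ) (f : Fin k → Fin n), Function.Injective f →
        Q.map (fun x : Fin n → Sph d => x ∘ f) ≤
          ENNReal.ofReal (2 ^ (h * d * k)) • Measure.pi fun _ : Fin k => sig d) →
      Q.real {x | (AA * top gst (s - Real.logb 2 (2 / Real.sqrt 3)) + ε) * ord d < maxBalls x} ≤
        Real.exp (-(δ * ord d)) := by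
  rcases lt_or_ge s₂ s₁ with h12 | h12
  · refine ⟨1, one_pos, ?_⟩
    filter_upwards with d s hs1 hs2
    exfalso; linarith
  set s0 := Real.logb 2 (2 / Real.sqrt 3) with hs0
  have hs0p : 0 < s0 := W_pos
  have hl2 : 0 < Real.log 2 := Real.log_pos (by norm_num)
  have hA := AA_pos
  have hA1 := AA_le_one
  have hgst := gst_pos
  -- the upper constant is bounded
  set M : ℝ := top gst (s₂ - s0) with hM
  have hM0 : 0 ≤ M := top_nonneg (by linarith) (by linarith)
  -- parameters
  set e : ℝ := min (ε / (16 * (M + 1))) (min ((s₁ - s0) / 8) (min (AA / 2) (1 / 8))) with he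
  have he0 : 0 < e := by
    rw [he]
    refine lt_min (by positivity) (lt_min (by linarith) (lt_min (by linarith) (by norm_num)))
  have heM : e * (M + 1) ≤ ε / 16 := by
    have : e ≤ ε / (16 * (M + 1)) := min_le_left _ _
    calc e * (M + 1) ≤ ε / (16 * (M + 1)) * (M + 1) :=
          mul_le_mul_of_nonneg_right this (by linarith)
      _ = ε / 16 := by field_simp
  have heε : e ≤ ε / 16 := (le_mul_of_one_le_right he0.le (by linarith)).trans heM
  have hes : e ≤ (s₁ - s0) / 8 := (min_le_right _ _).trans (min_le_left _ _)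
  have heA : e ≤ AA / 2 := (min_le_right _ _).trans ((min_le_right _ _).trans (min_le_left _ _))
  have he8 : e ≤ 1 / 8 := (min_le_right _ _).trans ((min_le_right _ _).trans (min_le_right _ _))
  set δ : ℝ := (s₁ - s0) / 2 * (AA / 2) with hδ
  have hδ0 : 0 < δ := by
    rw [hδ]
    have : 0 < s₁ - s0 := by linarith
    positivity
  refine ⟨δ, hδ0, ?_⟩
  filter_upwards [weight_upper (s₁ := s₁) (s₂ := s₂) (by linarith) h2 he0 (by linarith),
    RR_close hcap he0, log_close he0, eventually_ge_atTop 10]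
    with d hup hR hlog hd10 s hs1 hs2 h n Q hQp hn hQ
  obtain ⟨hd4, hup⟩ := hup
  obtain ⟨hR1, hR2⟩ := hR
  have : NeZero d := ⟨by omega⟩
  have hp := pc_pos hd4
  have hd0 : (10 : ℝ) ≤ d := by exact_mod_cast hd10
  set o := ord d with ho
  have ho0 : 0 < o := ord_pos (by omega)
  have hR0 : 0 ≤ RR d := by unfold RR; positivity
  set D : ℝ := Real.log 2 * d with hD
  have hD0 : 0 < D := mul_pos hl2 (by linarith)
  have hRp : D / pc d = RR d := by
    rw [hD]; unfold RR; ring
  set N : ℝ := (2 : ℝ) ^ (s * d) with hN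
  have hN0 : 0 < N := by rw [hN]; positivity
  set t : ℝ := s - s0 with ht
  have ht0 : 0 < t := by rw [ht]; linarith
  have htg : t < gst := by rw [ht]; linarith
  have hr1 : (2 : ℝ) ^ (s₁ * d) ≤ N := by
    apply Real.rpow_le_rpow_of_exponent_le (by norm_num)
    exact mul_le_mul_of_nonneg_right hs1 (by linarith)
  have hr2 : N ≤ 2 ^ (s₂ * d) := by
    apply Real.rpow_le_rpow_of_exponent_le (by norm_num)
    exact mul_le_mul_of_nonneg_right hs2 (by linarith)
  obtain ⟨hL1, hL2⟩ := hlog s
  rw [← hN, ← hs0] at hL1 hL2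
  have hL0 : 0 < Real.log (N * pc d) := by
    have : 0 < (s - s0 - e) * D := mul_pos (by linarith) hD0
    linarith
  set l := Real.log (N * pc d) with hl
  have hG : gst * Real.log 2 * d = D * gst := by rw [hD]; ring
  have hlG : l < D * gst :=
    lt_of_le_of_lt hL2 (by rw [mul_comm _ D]; exact mul_lt_mul_of_pos_left htg hD0)
  have h5 : top (gst * Real.log 2 * d) l ≤ D * top gst t := by
    rw [← top_hom hD0, hG]
    apply top_mono hL0
    · linarith
    · exact mul_lt_mul_of_pos_left htg hD0
  have hT0 : 0 ≤ top gst t := top_nonneg ht0 htg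
  have hTM : top gst t ≤ M := top_mono ht0 (by rw [ht]; linarith) (by linarith)
  have hw := hup N hr1 hr2
  rw [← hl] at hw
  set k : ℕ := ⌈(1 + e) * top (gst * Real.log 2 * d) l / pc d⌉₊ with hk
  have hQk : Q.real {x | ∃ I, Kis x I ∧ k ≤ I.card} ≤ N ^ k / (k ! : ℝ) * kp d k := by
    refine (union_spread (b := 2 ^ (h * d * k)) (by positivity) (hQ k)).trans ?_
    rw [← mul_assoc]
    apply mul_le_mul_of_nonneg_right _ (kp_nonneg d k)
    have h6 : (n.choose k : ℝ) ≤ (n : ℝ) ^ k / (k ! : ℝ) := Nat.choose_le_pow_div k n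
    have h7 : (2 : ℝ) ^ (h * d * k) = (2 ^ (h * d)) ^ k := by
      rw [Real.rpow_mul (by norm_num), Real.rpow_natCast]
    have h8 : (n : ℝ) * 2 ^ (h * d) ≤ N := by
      calc (n : ℝ) * 2 ^ (h * d) ≤ 2 ^ ((s - h) * d) * 2 ^ (h * d) :=
            mul_le_mul_of_nonneg_right hn (by positivity)
        _ = N := by
            rw [← Real.rpow_add (by norm_num), hN]; congr 1; ring
    calc (n.choose k : ℝ) * 2 ^ (h * d * k) ≤ (n : ℝ) ^ k / (k ! : ℝ) * (2 ^ (h * d)) ^ k := by
          rw [h7]; exact mul_le_mul_of_nonneg_right h6 (by positivity)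
      _ = ((n : ℝ) * 2 ^ (h * d)) ^ k / (k ! : ℝ) := by rw [mul_pow]; ring
      _ ≤ N ^ k / (k ! : ℝ) := by
          apply div_le_div_of_nonneg_right _ (by positivity)
          exact pow_le_pow_left₀ (by positivity) h8 k
  refine le_trans (le_trans (measureReal_mono ?_ (measure_ne_top _ _)) hQk) (hw.trans ?_)
  · intro x hx
    obtain ⟨I, hI, hI2⟩ := exists_maxBalls x
    refine ⟨I, hI, ?_⟩
    rw [hk, Nat.ceil_le]
    refine le_trans ?_ (show (AA * top gst t + ε) * o ≤ (I.card : ℝ) by
      rw [hI2]; exact le_of_lt hx)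
    have h6 : (1 + e) * top (gst * Real.log 2 * d) l / pc d ≤ (1 + e) * top gst t * RR d := by
      calc (1 + e) * top (gst * Real.log 2 * d) l / pc d ≤ (1 + e) * (D * top gst t) / pc d := by
            apply div_le_div_of_nonneg_right _ hp.le
            exact mul_le_mul_of_nonneg_left h5 (by linarith)
        _ = _ := by rw [← hRp]; ring
    refine h6.trans ?_
    set T := top gst t with hT
    have h7 : (1 + e) * T * RR d ≤ (1 + e) * T * ((AA + e) * o) :=
      mul_le_mul_of_nonneg_left hR2 (by positivity)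
    refine h7.trans ?_
    have h8 : (1 + e) * T * (AA + e) ≤ AA * T + ε := by
      have h9 : e * T ≤ ε / 16 := by
        calc e * T ≤ e * (M + 1) := mul_le_mul_of_nonneg_left (by linarith) he0.le
          _ ≤ _ := heM
      have h10 : 0 ≤ e * T := by positivity
      have h11 : AA * (e * T) ≤ 1 * (e * T) := mul_le_mul_of_nonneg_right hA1 h10
      have h12 : e * (e * T) ≤ 1 * (e * T) := mul_le_mul_of_nonneg_right (by linarith) h10
      have e2 : (1 + e) * T * (AA + e) = AA * T + e * T + AA * (e * T) + e * (e * T) := by ring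
      linarith
    calc (1 + e) * T * ((AA + e) * o) = ((1 + e) * T * (AA + e)) * o := by ring
      _ ≤ _ := mul_le_mul_of_nonneg_right h8 ho0.le
  · apply Real.exp_le_exp.2
    apply neg_le_neg
    have h9 : l ≤ top (gst * Real.log 2 * d) l := by
      rw [hG]
      refine le_trans ?_ (lev_le_top hL0 hlG)
      unfold lev
      exact le_min (by linarith) hlG.le
    have h10 : (s₁ - s0) / 2 * D ≤ l := by
      refine le_trans ?_ hL1
      apply mul_le_mul_of_nonneg_right _ hD0.le
      linarith
    have h11 : (s₁ - s0) / 2 * D ≤ (1 + e) * top (gst * Real.log 2 * d) l := by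
      have h12 : 0 ≤ e * top (gst * Real.log 2 * d) l := mul_nonneg he0.le (by linarith)
      linarith
    calc δ * o = (s₁ - s0) / 2 * (AA / 2 * o) := by rw [hδ]; ring
      _ ≤ (s₁ - s0) / 2 * RR d := by
          apply mul_le_mul_of_nonneg_left _ (by linarith)
          refine le_trans ?_ hR1
          exact mul_le_mul_of_nonneg_right (by linarith) ho0.le
      _ = (s₁ - s0) / 2 * D / pc d := by rw [← hRp]; ring
      _ ≤ _ := div_le_div_of_nonneg_right h11 hp.le

end Pool.Agent.Helper63.SP
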