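import Pool.Agent.Helper63.SM.Up

/-!
The upper bound for the largest kissing configuration among random candidates with bounded
`k`-point densities.
-/

set_option autoImplicit false

open MeasureTheory Set Filter Topology
open scoped Nat

namespace Pool.Agent.Helper63.SP

open Pool.Agent.Helper63.RKS Pool.Agent.Helper49.EJ Pool.Agent.Helper47.KP

/-- the first moment -/
lemma first_moment_real {P : ℕ → ℝ} (h0 : ∀ k, 0 ≤ P k) {p κ K y n : ℝ} {k q : ℕ} (hp : 0 < p)
    (hp1 : p ≤ 1) (hκ0 : 0 < κ) (hκ1 : κ < 1) (hK : 0 ≤ K) (hn : 0 < n) (hk : 0 < k)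
    (hq : q = ⌊y / p⌋₊) (hy : 0 ≤ y) (hyk : y ≤ p * k) (hpk : 1 ≤ p * k)
    (H1 : P q ≤ Real.exp (-((1 - κ) * p * q ^ 2 / 2) + K * q))
    (H2 : P k ≤ (k.choose q : ℝ) * P q * Real.exp (-((1 - κ) * p * q * (k - q : ℕ)))) :
    n ^ k / (k ! : ℝ) * P k ≤
      Real.exp (k * (3 + K + Real.log (n * p)) - (1 - κ) * (y * (k - y / (2 * p)))) := by
  have hk0 : (0 : ℝ) < k := by exact_mod_cast hk
  have hn0 : (0 : ℝ) < n := hn
  have hq1 : (q : ℝ) ≤ y / p := by rw [hq]; exact Nat.floor_le (by positivity)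
  have hq2 : y / p - 1 ≤ q := by
    rw [hq]
    have := Nat.lt_floor_add_one (y / p)
    linarith
  have hqk : q ≤ k := by
    have h3 : (q : ℝ) ≤ k := hq1.trans (by rw [div_le_iff₀ hp]; linarith)
    exact_mod_cast h3
  have hqk' : (q : ℝ) ≤ k := by exact_mod_cast hqk
  -- binomial coefficients
  have hc1 : n ^ k / (k ! : ℝ) ≤ Real.exp (k * (1 + Real.log (n * p))) := by
    have h2 : (k : ℝ) ^ k / (k ! : ℝ) ≤ Real.exp k :=
      Real.pow_div_factorial_le_exp (x := (k : ℝ)) hk0.le k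
    have h3 : (n : ℝ) / k ≤ n * p := by
      rw [div_le_iff₀ hk0]
      nlinarith
    calc n ^ k / (k ! : ℝ) = ((k : ℝ) ^ k / (k ! : ℝ)) * ((n : ℝ) / k) ^ k := by
          rw [div_pow]; field_simp
      _ ≤ Real.exp k * (n * p) ^ k :=
          mul_le_mul h2 (pow_le_pow_left₀ (by positivity) h3 k) (by positivity)
            (Real.exp_pos _).le
      _ = Real.exp (k * (1 + Real.log (n * p))) := by
          rw [mul_add, Real.exp_add, mul_one, Real.exp_nat_mul (Real.log (n * p)),
            Real.exp_log (by positivity)]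
  have hc2 : (k.choose q : ℝ) ≤ Real.exp k := by
    have h1 : (k.choose q : ℝ) ≤ (2 : ℝ) ^ k := by exact_mod_cast Nat.choose_le_two_pow k q
    refine h1.trans ?_
    rw [← mul_one (k : ℝ), Real.exp_nat_mul]
    exact pow_le_pow_left₀ (by norm_num) (by have := Real.add_one_le_exp (1 : ℝ); linarith) k
  have h3 : n ^ k / (k ! : ℝ) * P k ≤ Real.exp (k * (1 + Real.log (n * p)) + (k +
      (-((1 - κ) * p * q ^ 2 / 2) + K * q) + -((1 - κ) * p * q * (k - q : ℕ)))) := by
    rw [Real.exp_add, Real.exp_add, Real.exp_add]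
    apply mul_le_mul hc1 _ (h0 k) (Real.exp_pos _).le
    refine H2.trans ?_
    apply mul_le_mul_of_nonneg_right _ (Real.exp_pos _).le
    exact mul_le_mul hc2 H1 (h0 q) (Real.exp_pos _).le
  refine h3.trans (Real.exp_le_exp.2 ?_)
  rw [Nat.cast_sub hqk]
  have h4 : 0 ≤ k - y / (2 * p) := by
    have : y / (2 * p) ≤ k / 2 := by
      rw [div_le_div_iff₀ (by positivity) (by norm_num)]
      nlinarith
    linarith
  have h5 : y * (k - y / (2 * p)) - k ≤ p * (q * (k - q / 2)) := by
    have h6 : q * (k - y / (2 * p)) ≤ q * (k - (q : ℝ) / 2) := by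
      apply mul_le_mul_of_nonneg_left _ (Nat.cast_nonneg q)
      have : (q : ℝ) / 2 ≤ y / (2 * p) := by
        rw [show y / (2 * p) = (y / p) / 2 by field_simp]
        linarith
      linarith
    have h7 : (y - p) * (k - y / (2 * p)) ≤ p * q * (k - y / (2 * p)) := by
      apply mul_le_mul_of_nonneg_right _ h4
      have := mul_le_mul_of_nonneg_left hq2 hp.le
      have h8 : p * (y / p - 1) = y - p := by field_simp
      linarith
    have h8 : p * (k - y / (2 * p)) ≤ k := by
      have h9 : 0 ≤ y / (2 * p) := by positivity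
      have h10 : p * (k - y / (2 * p)) ≤ 1 * (k - y / (2 * p)) :=
        mul_le_mul_of_nonneg_right hp1 h4
      linarith
    have h9 := mul_le_mul_of_nonneg_left h6 hp.le
    nlinarith
  have h6 : (1 - κ) * (y * (k - y / (2 * p)) - k) ≤ (1 - κ) * (p * (q * (k - q / 2))) :=
    mul_le_mul_of_nonneg_left h5 (by linarith)
  have h7 : (1 - κ) * (p * (q * (k - (q : ℝ) / 2))) = (1 - κ) * p * q ^ 2 / 2 +
      (1 - κ) * p * q * (k - q) := by ring
  have h8 : K * q ≤ K * k := mul_le_mul_of_nonneg_left hqk' hK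
  have h9 : (1 - κ) * k ≤ k := by nlinarith
  nlinarith

/-- **The first moment bound, real number of candidates.** -/
theorem weight_upper {s₁ s₂ : ℝ} (h1 : Real.logb 2 (2 / Real.sqrt 3) < s₁)
    (h2 : s₂ < Real.logb 2 (2 / Real.sqrt 3) + gst) {ε : ℝ} (hε : 0 < ε) (hε1 : ε < 1) :
    ∀ᶠ d : ℕ in atTop, 4 ≤ d ∧ ∀ n : ℝ, (2 : ℝ) ^ (s₁ * d) ≤ n → n ≤ 2 ^ (s₂ * d) →
      n ^ ⌈(1 + ε) * top (gst * Real.log 2 * d) (Real.log (n * pc d)) / pc d⌉₊ /
        (⌈(1 + ε) * top (gst * Real.log 2 * d) (Real.log (n * pc d)) / pc d⌉₊ ! : ℝ) *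
        kp d ⌈(1 + ε) * top (gst * Real.log 2 * d) (Real.log (n * pc d)) / pc d⌉₊ ≤
        Real.exp (-((1 + ε) * top (gst * Real.log 2 * d) (Real.log (n * pc d)) / pc d)) := by
  set s0 := Real.logb 2 (2 / Real.sqrt 3) with hs0
  have hl2 : 0 < Real.log 2 := Real.log_pos (by norm_num)
  have hgst := gst_pos
  -- the distance of the level from `l`
  obtain ⟨c, hc, hcev⟩ := log_np h1
  set r : ℝ := (gst - (s₂ - s0)) / 2 with hr
  have hr0 : 0 < r := by rw [hr]; linarith
  set c2 : ℝ := min (c * Real.log 2) (r * Real.log 2) with hc2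
  have hc20 : 0 < c2 := by rw [hc2]; exact lt_min (by positivity) (by positivity)
  -- parameters
  set κ : ℝ := min (1 / 4) (ε * c2 / (8 * (gst * Real.log 2))) with hκ
  have hκ0 : 0 < κ := by rw [hκ]; positivity
  have hκ1 : κ ≤ 1 / 4 := min_le_left _ _
  have hκ2 : κ * (gst * Real.log 2) ≤ ε * c2 / 8 := by
    have : κ ≤ ε * c2 / (8 * (gst * Real.log 2)) := min_le_right _ _
    calc κ * (gst * Real.log 2) ≤ ε * c2 / (8 * (gst * Real.log 2)) * (gst * Real.log 2) :=
          mul_le_mul_of_nonneg_right this (by positivity)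
      _ = ε * c2 / 8 := by field_simp
  set g : ℝ := (1 - κ) * gst with hg
  have hgl : g < gst := by rw [hg]; nlinarith
  obtain ⟨K, hK1, hKp⟩ := kp_upper (g := g) (κ := κ) hgl hκ0 (by linarith)
  have hev : ∀ᶠ d : ℕ in atTop, max 1 (8 * (3 + K) / (ε * c2)) + 1 / c2 ≤ d := by
    exact (tendsto_natCast_atTop_atTop (R := ℝ)).eventually_ge_atTop _
  filter_upwards [hKp, kp_rec (g := g) (κ := κ) hgl hκ0 (by linarith), hcev, hev,
    log_lp_le (η := r) hr0 s₂] with d hk hrec hnp hbig hlp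
  obtain ⟨hd4, hrec⟩ := hrec
  refine ⟨hd4, fun n hn1 hn2 => ?_⟩
  have : NeZero d := ⟨by omega⟩
  have hp := pc_pos hd4
  have hp1 : pc d ≤ 1 := pc_le_one (by omega)
  have hn0 : (0 : ℝ) < n := lt_of_lt_of_le (by positivity) hn1
  obtain ⟨-, hlog⟩ := hnp n hn1
  have hlup := hlp n hn0 hn2
  rw [← hs0] at hlup
  set p := pc d with hpd
  set l := Real.log (n * p) with hl
  set G : ℝ := gst * Real.log 2 * d with hG
  have hd0 : (0 : ℝ) < d := by exact_mod_cast (by omega : 0 < d)
  have hq2 : 0 < 1 / c2 := by positivity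
  have hd1 : 8 * (3 + K) / (ε * c2) ≤ d := by
    have := le_max_right 1 (8 * (3 + K) / (ε * c2))
    linarith
  have hd3 : 1 / c2 ≤ d := by
    have := (le_max_left 1 (8 * (3 + K) / (ε * c2)))
    linarith
  have hc2d : 1 ≤ c2 * d := by
    rw [div_le_iff₀ hc20] at hd3
    linarith
  have hlc : c2 * d ≤ l := by
    refine le_trans ?_ hlog
    exact mul_le_mul_of_nonneg_right (min_le_left _ _) hd0.le
  have hGl : c2 * d ≤ G - l := by
    have h3 : (r * Real.log 2) * d ≤ G - l := by
      have : G - (s₂ - s0 + r) * Real.log 2 * d = (r * Real.log 2) * d := by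
        rw [hG, hr]; ring
      linarith
    exact (mul_le_mul_of_nonneg_right (min_le_right _ _) hd0.le).trans h3
  have hl0 : 0 < l := by linarith
  have hlG : l < G := by linarith
  set y0 : ℝ := lev G l with hy0
  have hy0l : c2 * d ≤ y0 - l := by
    rw [hy0]; unfold lev
    have : l + c2 * d ≤ min (2 * l) G := le_min (by linarith) (by linarith)
    linarith
  have hy0G : y0 ≤ G := min_le_right _ _
  have hy02 : y0 ≤ 2 * l := min_le_left _ _
  have hy00 : 0 < y0 := by linarith
  set T := top G l with hT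
  have hTy : y0 ≤ T := lev_le_top hl0 hlG
  have hTeq : T * (y0 - l) = y0 ^ 2 / 2 := by
    have h3 : 0 < y0 - l := by linarith
    rw [hT]; unfold top
    rw [← hy0]
    field_simp
  set y : ℝ := (1 - κ) * y0 with hy
  have hκ' : 0 < 1 - κ := by linarith
  have hy_pos : 0 < y := mul_pos hκ' hy00
  set k : ℕ := ⌈(1 + ε) * T / p⌉₊ with hkdef
  have hkge : (1 + ε) * T / p ≤ k := Nat.le_ceil _
  have hxk : (1 + ε) * T ≤ p * k := by
    rw [div_le_iff₀ hp] at hkge
    linarith
  have hT0 : 0 < T := by linarith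
  have hTx : T ≤ p * k := by nlinarith
  have hk0 : (0 : ℝ) < k := by
    have : 0 < p * k := by linarith
    exact (mul_pos_iff_of_pos_left hp).1 this
  have hkn : 0 < k := by exact_mod_cast hk0
  have hyk : y ≤ p * k := by
    have : y ≤ y0 := by rw [hy]; nlinarith
    linarith
  have hpk1 : 1 ≤ p * k := by linarith
  set q : ℕ := ⌊y / p⌋₊ with hq
  have hqy : p * q ≤ y := by
    have : (q : ℝ) ≤ y / p := Nat.floor_le (by positivity)
    rw [le_div_iff₀ hp] at this
    linarith
  have hyG : y ≤ g * Real.log 2 * d := by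
    have : g * Real.log 2 * d = (1 - κ) * G := by rw [hg, hG]; ring
    rw [this, hy]
    exact mul_le_mul_of_nonneg_left hy0G hκ'.le
  have hqk : q ≤ k := by
    have h3 : (q : ℝ) ≤ k := by
      have : p * q ≤ p * k := hqy.trans hyk
      exact le_of_mul_le_mul_left this hp
    exact_mod_cast h3
  have hFM := first_moment_real (P := kp d) (kp_nonneg d) (p := p) (κ := κ) (K := K) (y := y)
    (n := n) (k := k) (q := q) hp hp1 hκ0 (by linarith) (by linarith) hn0 hkn hq hy_pos.le hyk
    hpk1 (hk q (hqy.trans hyG)) (hrec k q hqk (by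
      refine le_trans ?_ (hqy.trans hyG)
      have : (1 - κ) * p ≤ p := mul_le_of_le_one_left hp.le (by linarith)
      exact mul_le_mul_of_nonneg_right this (Nat.cast_nonneg q)))
  refine hFM.trans ?_
  apply Real.exp_le_exp.2
  rw [← hl]
  set x : ℝ := p * k with hx
  have e1 : (k : ℝ) = x / p := by rw [hx]; field_simp
  rw [e1]
  have hend := num_end (x := x) (l := l) (y0 := y0) (T := T) (κ := κ) (ε := ε) (c2 := c2)
    (D := d) (K := K) (p := p) (G := G) hp hκ0 hκ1 hε hε1 hc20 hd0 (by linarith) hxk hT0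
    hpk1 hy00 hTy hTeq hy0l hy0G (by
      rw [hG, ← mul_assoc]
      exact mul_le_mul_of_nonneg_right hκ2 hd0.le)
    (by
      rw [div_le_iff₀ (by positivity)] at hd1
      linarith)
  refine hend.trans ?_
  have : (1 + ε) * T / p ≤ x / p := div_le_div_of_nonneg_right hxk hp.le
  linarith



end Pool.Agent.Helper63.SP
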